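import Mathlib
import Pool.Agent.H662R2.SM

/-!
# The quasi-identities of finite Lie rings are undecidable

There is no algorithm which decides, for a quasi-identity in the language of Lie rings, whether it
holds in every finite Lie ring.

Outline.  Let `M` be a deterministic multi-stack machine for which the inputs on which `M` accepts
and the inputs on which `M` halts without accepting are recursively inseparable.  We use generators
`g s a` for each stack `s` and letter `a`, with `[g s a, g t b] = 0` for `s ≠ t`, and a generator
for each state `q`.  A configuration is represented by letting all the operators `ad (g s a)`, for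
the letters `a` on the stacks `s`, act on the state `q`, the top letters acting first.  Each
instruction gives one relation; in addition it records itself on a history stack.  If `M` accepts,
then the element representing the initial configuration is zero in every Lie ring satisfying the
relations.  If `M` halts without accepting, then the indicator function of the (finite) set of
configurations with history which occur in the computation gives a finite module over `F₂` with
operators, hence a finite Lie ring of linear maps, where this element is not zero.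
-/

set_option autoImplicit false

namespace Pool.Agent.Results.MP_b13462_lc.Undecidable

open Pool.Agent.H662R2.SM

/-- Terms in the language of Lie rings: variables, `0`, `+`, `-` and the bracket. -/
inductive Term : Type
  | var (i : ℕ) : Term
  | zero : Term
  | add (s t : Term) : Term
  | neg (s : Term) : Term
  | br (s t : Term) : Term

/-- The value of a term in a Lie ring. -/
def Term.eval {L : Type} [LieRing L] (v : ℕ → L) : Term → L
  | .var i => v i
  | .zero => 0
  | .add s t => s.eval v + t.eval v
  | .neg s => - s.eval v
  | .br s t => ⁅s.eval v, t.eval v⁆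

/-- A quasi-identity: a finite list of equations (the premises) and one equation (the
conclusion). -/
structure QuasiId where
  prem : List (Term × Term)
  concl : Term × Term

/-- The quasi-identity holds in the Lie ring `L`. -/
def QuasiId.TrueIn (q : QuasiId) (L : Type) [LieRing L] : Prop :=
  ∀ v : ℕ → L, (∀ p ∈ q.prem, p.1.eval v = p.2.eval v) → q.concl.1.eval v = q.concl.2.eval v

/-- The quasi-identity holds in all finite Lie rings. -/
def QuasiId.TrueInAllFinite (q : QuasiId) : Prop :=
  ∀ (L : Type) [LieRing L] [Finite L], q.TrueIn L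

/-- Polish notation of a term, as a finite string of natural numbers. -/
def Term.code : Term → List ℕ
  | .var i => [i + 4]
  | .zero => [0]
  | .add s t => 1 :: (s.code ++ t.code)
  | .neg s => 2 :: s.code
  | .br s t => 3 :: (s.code ++ t.code)

/-- The string given to an algorithm as a description of a quasi-identity: the number of premises,
followed by the terms of the premises and of the conclusion. -/
def QuasiId.code (q : QuasiId) : List ℕ :=
  q.prem.length :: ((q.prem.flatMap fun p => p.1.code ++ p.2.code) ++
    (q.concl.1.code ++ q.concl.2.code))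

/-- There is an algorithm which decides, for every quasi-identity, whether it holds in all finite
Lie rings. -/
def EqualityProblemDecidable : Prop :=
  ∃ f : List ℕ → Bool, Computable f ∧ ∀ q : QuasiId, f q.code = true ↔ q.TrueInAllFinite

/-! ### Sanity check: different quasi-identities have different codes -/

theorem code_prefix : ∀ (s t : Term) (a b : List ℕ), s.code ++ a = t.code ++ b → s = t ∧ a = b := by
  intro s
  induction s with
  | var i =>
    intro t a b h
    cases t with
    | var j => simpa [Term.code] using h
    | _ => simp [Term.code] at h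
  | zero =>
    intro t a b h
    cases t with
    | zero => simpa [Term.code] using h
    | _ => simp [Term.code] at h
  | add s₁ s₂ ih₁ ih₂ =>
    intro t a b h
    cases t with
    | add t₁ t₂ =>
      simp only [Term.code, List.cons_append, List.append_assoc, List.cons.injEq, true_and] at h
      obtain ⟨rfl, h₂⟩ := ih₁ _ _ _ h
      obtain ⟨rfl, h₃⟩ := ih₂ _ _ _ h₂
      exact ⟨rfl, h₃⟩
    | _ => simp [Term.code] at h
  | neg s₁ ih₁ =>
    intro t a b h
    cases t with
    | neg t₁ =>
      simp only [Term.code, List.cons_append, List.cons.injEq, true_and] at h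
      obtain ⟨rfl, h₂⟩ := ih₁ _ _ _ h
      exact ⟨rfl, h₂⟩
    | _ => simp [Term.code] at h
  | br s₁ s₂ ih₁ ih₂ =>
    intro t a b h
    cases t with
    | br t₁ t₂ =>
      simp only [Term.code, List.cons_append, List.append_assoc, List.cons.injEq, true_and] at h
      obtain ⟨rfl, h₂⟩ := ih₁ _ _ _ h
      obtain ⟨rfl, h₃⟩ := ih₂ _ _ _ h₂
      exact ⟨rfl, h₃⟩
    | _ => simp [Term.code] at h

theorem code_injective : Function.Injective QuasiId.code := by
  rintro ⟨l, c⟩ ⟨l', c'⟩ h
  have key : ∀ (l l' : List (Term × Term)), l.length = l'.length →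
      ((l.flatMap fun p => p.1.code ++ p.2.code) ++ (c.1.code ++ c.2.code)) =
      ((l'.flatMap fun p => p.1.code ++ p.2.code) ++ (c'.1.code ++ c'.2.code)) →
      l = l' ∧ c = c' := by
    intro l
    induction l with
    | nil =>
      intro l' hl h
      have : l' = [] := by cases l' <;> simp_all
      subst this
      refine ⟨rfl, ?_⟩
      obtain ⟨h1, h2⟩ := code_prefix c.1 c'.1 _ _ (by simpa using h)
      obtain ⟨h3, _⟩ := code_prefix c.2 c'.2 [] [] (by simpa using h2)
      exact Prod.ext h1 h3
    | cons p l ih =>
      intro l' hl h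
      cases l' with
      | nil => simp at hl
      | cons p' l' =>
        simp only [List.flatMap_cons, List.append_assoc] at h
        obtain ⟨h1, h2⟩ := code_prefix _ _ _ _ h
        obtain ⟨h3, h4⟩ := code_prefix _ _ _ _ h2
        obtain ⟨h5, h6⟩ := ih l' (by simpa using hl) h4
        rw [h5, h6, Prod.ext h1 h3]
        exact ⟨rfl, rfl⟩
  simp only [QuasiId.code, List.cons.injEq] at h
  obtain ⟨h1, h2⟩ := key l l' h.1 h.2
  rw [h1, h2]

/-! ### Presentation of a machine -/

section machine

variable {K Γ Q : Type}

/-- letters: machine letters and history letters -/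
abbrev Let (Γ Q : Type) : Type := Γ ⊕ (Q × Γ)

/-- generators: letters on stacks (the stack `none` is the history) and states -/
abbrev Gen (K Γ Q : Type) : Type := (Option K × Let Γ Q) ⊕ Q

/-- right-normed iterated brackets -/
def chain (l : List Term) (t : Term) : Term := l.foldr Term.br t

/-- the premises -/
def IsPrem (M : Mach K Γ Q) (acc : Q → Γ → Prop) (e : Gen K Γ Q → ℕ) (p : Term × Term) : Prop :=
  (∃ (s t : Option K) (a b : Let Γ Q), s ≠ t ∧
    p = (.br (.var (e (.inl (s, a)))) (.var (e (.inl (t, b)))), .zero)) ∨
  (∃ q o q' w, M.δ q o = some (q', w) ∧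
    p = (.br (.var (e (.inl (some (M.κ q), .inl o)))) (.var (e (.inr q))),
      chain (w.reverse.map fun x => .var (e (.inl (some (M.κ q), .inl x))))
        (.br (.var (e (.inl (none, .inr (q, o))))) (.var (e (.inr q')))))) ∨
  (∃ q o, acc q o ∧
    p = (.br (.var (e (.inl (some (M.κ q), .inl o)))) (.var (e (.inr q))), .zero))

theorem finite_prem [Finite K] [Finite Γ] [Finite Q] (M : Mach K Γ Q) (acc : Q → Γ → Prop)
    (e : Gen K Γ Q → ℕ) : {p | IsPrem M acc e p}.Finite := by
  classical
  refine Set.Finite.subset (Set.Finite.union (Set.finite_range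
    (fun x : (Option K × Option K) × (Let Γ Q × Let Γ Q) =>
      ((.br (.var (e (.inl (x.1.1, x.2.1)))) (.var (e (.inl (x.1.2, x.2.2)))), .zero) :
        Term × Term)))
    (Set.Finite.union (Set.finite_range (fun x : Q × Γ => (match M.δ x.1 x.2 with
      | some (q', w) => (.br (.var (e (.inl (some (M.κ x.1), .inl x.2)))) (.var (e (.inr x.1))),
          chain (w.reverse.map fun y => .var (e (.inl (some (M.κ x.1), .inl y))))
            (.br (.var (e (.inl (none, .inr (x.1, x.2))))) (.var (e (.inr q')))))
      | none => (.zero, .zero) : Term × Term)))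
      (Set.finite_range (fun x : Q × Γ =>
        ((.br (.var (e (.inl (some (M.κ x.1), .inl x.2)))) (.var (e (.inr x.1))), .zero) :
          Term × Term))))) ?_
  rintro p (⟨s, t, a, b, _, rfl⟩ | ⟨q, o, q', w, h, rfl⟩ | ⟨q, o, _, rfl⟩)
  · exact Or.inl ⟨((s, t), (a, b)), rfl⟩
  · exact Or.inr (Or.inl ⟨(q, o), by simp [h]⟩)
  · exact Or.inr (Or.inr ⟨(q, o), rfl⟩)

/-- the generators on the stacks of a configuration -/
def word (ks : List K) (S : K → List Γ) : List (Option K × Let Γ Q) :=
  ks.flatMap fun s => (S s).reverse.map fun o => (some s, .inl o)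

/-- the term for the configuration `(q, S)` -/
def cfgTerm (ks : List K) (e : Gen K Γ Q → ℕ) (q : Q) (S : K → List Γ) : Term :=
  chain ((word ks S).map fun x => .var (e (.inl x))) (.var (e (.inr q)))

/-! ### Acceptance implies the conclusion -/

theorem eval_chain {L : Type} [LieRing L] (v : ℕ → L) (l : List Term) (t : Term) :
    (chain l t).eval v = ((l.map fun s => (LieAlgebra.ad ℤ L (s.eval v) : Module.End ℤ L)).prod)
      (t.eval v) := by
  induction l with
  | nil => simp [chain]
  | cons s l ih =>
    have : chain (s :: l) t = .br s (chain l t) := rfl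
    rw [this, Term.eval, ih]
    simp

theorem split_word [DecidableEq K] {L : Type} [LieRing L] (D : K → Γ → Module.End ℤ L)
    (hD : ∀ s t a b, s ≠ t → Commute (D s a) (D t b)) (ks : List K) (hks : ks.Nodup)
    (S : K → List Γ) (k : K) (hk : k ∈ ks) (o : Γ) (z : List Γ) (hS : S k = o :: z) :
    ∃ R : Module.End ℤ L, (ks.flatMap fun s => (S s).reverse.map (D s)).prod = R * D k o ∧
      ∀ w, (ks.flatMap fun s => (Function.update S k (w ++ z) s).reverse.map (D s)).prod =
        R * (w.reverse.map (D k)).prod := by
  obtain ⟨l₁, l₂, rfl⟩ := List.append_of_mem hk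
  have hn1 : k ∉ l₁ := by
    intro h
    rw [List.nodup_append] at hks
    exact hks.2.2 _ h _ (by simp) rfl
  have hn2 : k ∉ l₂ := by
    have := (List.nodup_append.1 hks).2.1
    exact (List.nodup_cons.1 this).1
  have upd : ∀ (l : List K) (w : List Γ), k ∉ l →
      (l.flatMap fun s => (Function.update S k w s).reverse.map (D s)) =
      l.flatMap fun s => (S s).reverse.map (D s) := by
    intro l w hl
    rw [List.flatMap_def, List.flatMap_def]
    congr 1
    apply List.map_congr_left
    intro s hs
    rw [Function.update_of_ne (by rintro rfl; exact hl hs)]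
  have comm : ∀ a : Γ, Commute (D k a) (l₂.flatMap fun s => (S s).reverse.map (D s)).prod := by
    intro a
    apply Commute.list_prod_right
    intro x hx
    simp only [List.mem_flatMap, List.mem_map, List.mem_reverse] at hx
    obtain ⟨s, hs, b, _, rfl⟩ := hx
    exact hD _ _ _ _ (by rintro rfl; exact hn2 hs)
  set P1 := (l₁.flatMap fun s => (S s).reverse.map (D s)).prod with hP1
  set P2 := (l₂.flatMap fun s => (S s).reverse.map (D s)).prod with hP2
  refine ⟨P1 * (z.reverse.map (D k)).prod * P2, ?_, ?_⟩
  · simp only [List.flatMap_append, List.flatMap_cons, List.prod_append, hS, List.reverse_cons,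
      List.map_append, List.map_cons, List.map_nil, List.prod_cons, List.prod_nil, mul_one]
    rw [← hP1, ← hP2]
    simp only [mul_assoc]
    rw [(comm o).eq]
  · intro w
    simp only [List.flatMap_append, List.flatMap_cons, List.prod_append, Function.update_self,
      List.reverse_append, List.map_append]
    rw [upd _ _ hn1, upd _ _ hn2, ← hP1, ← hP2]
    have cw : Commute (w.reverse.map (D k)).prod P2 := by
      apply Commute.list_prod_left
      intro x hx
      simp only [List.mem_map, List.mem_reverse] at hx
      obtain ⟨b, _, rfl⟩ := hx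
      exact comm b
    simp only [mul_assoc]
    rw [cw.eq]

theorem accept [DecidableEq K] {L : Type} [LieRing L] (M : Mach K Γ Q) (acc : Q → Γ → Prop)
    (e : Gen K Γ Q → ℕ) (v : ℕ → L)
    (hp : ∀ p, IsPrem M acc e p → p.1.eval v = p.2.eval v) (ks : List K) (hks : ks.Nodup)
    (hall : ∀ k, k ∈ ks) (c c' : Q × (K → List Γ)) (hr : M.Reaches c c') (o : Γ) (z : List Γ)
    (h1 : c'.2 (M.κ c'.1) = o :: z) (h2 : acc c'.1 o) :
    (cfgTerm ks e c.1 c.2).eval v = 0 := by
  set A : Option K → Let Γ Q → Module.End ℤ L :=
    fun s a => LieAlgebra.ad ℤ L (v (e (.inl (s, a)))) with hA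
  have hcomm : ∀ s t a b, s ≠ t → Commute (A s a) (A t b) := by
    intro s t a b hst
    have h := hp _ (Or.inl ⟨s, t, a, b, hst, rfl⟩)
    simp only [Term.eval] at h
    refine LinearMap.ext fun x => ?_
    simp only [hA, Module.End.mul_apply, LieAlgebra.ad_apply]
    rw [leibniz_lie, h, zero_lie, zero_add]
  set D : K → Γ → Module.End ℤ L := fun s a => A (some s) (.inl a) with hD
  have hDc : ∀ s t a b, s ≠ t → Commute (D s a) (D t b) := fun s t a b h =>
    hcomm _ _ _ _ (by simpa using h)
  have ev : ∀ q S, (cfgTerm ks e q S).eval v =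
      (ks.flatMap fun s => (S s).reverse.map (D s)).prod (v (e (.inr q))) := by
    intro q S
    rw [cfgTerm, eval_chain]
    congr 2
    simp only [word, List.map_flatMap, List.map_map]
    rfl
  have base : ∀ q S o z, S (M.κ q) = o :: z → acc q o → (cfgTerm ks e q S).eval v = 0 := by
    intro q S o z h1 h2
    obtain ⟨R, hR, _⟩ := split_word D hDc ks hks S (M.κ q) (hall _) o z h1
    rw [ev, hR]
    have h := hp _ (Or.inr (Or.inr ⟨q, o, h2, rfl⟩))
    simp only [Term.eval] at h
    have : D (M.κ q) o (v (e (.inr q))) = 0 := by
      simp only [hD, hA, LieAlgebra.ad_apply]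
      exact h
    rw [Module.End.mul_apply, this, map_zero]
  have stp : ∀ q S q' S', M.step (q, S) = some (q', S') →
      (cfgTerm ks e q' S').eval v = 0 → (cfgTerm ks e q S).eval v = 0 := by
    intro q S q' S' hs h0
    unfold Mach.step at hs
    rcases hh : S (M.κ q) with _ | ⟨o, z⟩
    · simp [hh] at hs
    · simp only [hh, Option.map_eq_some_iff] at hs
      obtain ⟨⟨q₁, w⟩, hδ, he⟩ := hs
      simp only [Prod.mk.injEq] at he
      obtain ⟨rfl, rfl⟩ := he
      obtain ⟨R, hR, hR'⟩ := split_word D hDc ks hks S (M.κ q) (hall _) o z hh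
      rw [ev, hR'] at h0
      rw [ev, hR]
      have h := hp _ (Or.inr (Or.inl ⟨q, o, q₁, w, hδ, rfl⟩))
      simp only [eval_chain, Term.eval, List.map_map] at h
      have e1 : D (M.κ q) o (v (e (.inr q))) =
          ((w.reverse.map (D (M.κ q))).prod) (A none (.inr (q, o)) (v (e (.inr q₁)))) := by
        simp only [hD, hA, LieAlgebra.ad_apply]
        exact h
      rw [Module.End.mul_apply, e1]
      -- history letters commute with everything in `R`
      have hRc : ∀ x ∈ (ks.flatMap fun s => (Function.update S (M.κ q) (w ++ z) s).reverse.map (D s)),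
          Commute (A none (.inr (q, o))) x := by
        intro x hx
        simp only [List.mem_flatMap, List.mem_map, List.mem_reverse] at hx
        obtain ⟨s, hs, b, _, rfl⟩ := hx
        exact hcomm _ _ _ _ (by simp)
      have hc := Commute.list_prod_right _ _ hRc
      rw [hR'] at hc
      rw [← Module.End.mul_apply, ← Module.End.mul_apply, ← hc.eq,
        Module.End.mul_apply, h0, map_zero]
  obtain ⟨q, S⟩ := c
  obtain ⟨q', S'⟩ := c'
  refine Relation.ReflTransGen.head_induction_on (motive := fun c _ =>
    (cfgTerm ks e c.1 c.2).eval v = 0) hr (base _ _ _ _ h1 h2) ?_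
  intro a b hab _ ih
  exact stp a.1 a.2 b.1 b.2 hab ih

/-! ### The finite model for computations that halt without accepting -/

/-- put a letter on a stack -/
def push [DecidableEq K] (U : Option K → List (Let Γ Q)) (x : Option K × Let Γ Q) :
    Option K → List (Let Γ Q) :=
  Function.update U x.1 (x.2 :: U x.1)

/-- stacks and history as one family of stacks -/
def encode (S : K → List Γ) (h : List (Q × Γ)) : Option K → List (Let Γ Q)
  | some s => (S s).map Sum.inl
  | none => h.map Sum.inr

/-- one step with history -/
def hstep [DecidableEq K] (M : Mach K Γ Q) (c c' : Q × (K → List Γ) × List (Q × Γ)) : Prop :=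
  ∃ o z w, c.2.1 (M.κ c.1) = o :: z ∧ M.δ c.1 o = some (c'.1, w) ∧
    c'.2.1 = Function.update c.2.1 (M.κ c.1) (w ++ z) ∧ c'.2.2 = (c.1, o) :: c.2.2

/-- configurations with history that are reached from `(q₀, S₀)` -/
def Orb [DecidableEq K] (M : Mach K Γ Q) (q₀ : Q) (S₀ : K → List Γ)
    (c : Q × (K → List Γ) × List (Q × Γ)) : Prop :=
  Relation.ReflTransGen (hstep M) (q₀, S₀, []) c

theorem hstep_proj [DecidableEq K] {M : Mach K Γ Q} {c c' : Q × (K → List Γ) × List (Q × Γ)}
    (h : hstep M c c') : M.step (c.1, c.2.1) = some (c'.1, c'.2.1) := by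
  obtain ⟨o, z, w, h1, h2, h3, _⟩ := h
  simp [Mach.step, h1, h2, h3]

theorem orb_proj [DecidableEq K] {M : Mach K Γ Q} {q₀ : Q} {S₀ : K → List Γ}
    {c : Q × (K → List Γ) × List (Q × Γ)} (h : Orb M q₀ S₀ c) :
    M.Reaches (q₀, S₀) (c.1, c.2.1) := by
  induction h with
  | refl => exact Relation.ReflTransGen.refl
  | tail _ h ih => exact Relation.ReflTransGen.tail ih (hstep_proj h)

/-- a configuration from which a halting one is reached has finitely many successors (with
history), and the lengths of the stacks are bounded -/
theorem orb_bound [DecidableEq K] [Finite K] (M : Mach K Γ Q) (c r : Q × (K → List Γ))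
    (hr : M.Reaches c r) (hh : M.step r = none) :
    ∀ h : List (Q × Γ), ∃ N, ∀ c', Relation.ReflTransGen (hstep M) (c.1, c.2, h) c' →
      ∀ s, (encode c'.2.1 c'.2.2 s).length ≤ N := by
  have one : ∀ (S : K → List Γ) (h : List (Q × Γ)), ∃ N, ∀ s, (encode S h s).length ≤ N := by
    intro S h
    obtain ⟨N, hN⟩ := (Set.finite_range fun s : Option K => (encode S h s).length).bddAbove
    exact ⟨N, fun s => hN ⟨s, rfl⟩⟩
  refine Relation.ReflTransGen.head_induction_on (motive := fun c _ =>
    ∀ h : List (Q × Γ), ∃ N, ∀ c', Relation.ReflTransGen (hstep M) (c.1, c.2, h) c' →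
      ∀ s, (encode c'.2.1 c'.2.2 s).length ≤ N) hr ?_ ?_
  · intro h
    obtain ⟨N, hN⟩ := one r.2 h
    refine ⟨N, fun c' hc' => ?_⟩
    rcases Relation.ReflTransGen.cases_head hc' with rfl | ⟨b, hb, _⟩
    · exact hN
    · have := hstep_proj hb
      simp only [Prod.mk.eta] at this
      rw [hh] at this
      exact absurd this (by simp)
  · intro a b hab _ ih h
    have : ∃ h', hstep M (a.1, a.2, h) (b.1, b.2, h') ∧
        ∀ c', hstep M (a.1, a.2, h) c' → c' = (b.1, b.2, h') := by
      unfold Mach.step at hab
      rcases hz : a.2 (M.κ a.1) with _ | ⟨o, z⟩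
      · simp [hz] at hab
      · simp only [hz, Option.map_eq_some_iff] at hab
        obtain ⟨⟨q₁, w⟩, hδ, rfl⟩ := hab
        refine ⟨(a.1, o) :: h, ⟨o, z, w, hz, hδ, rfl, rfl⟩, ?_⟩
        rintro ⟨q₂, S₂, h₂⟩ ⟨o', z', w', e1, e2, e3, e4⟩
        simp only [hz, List.cons.injEq] at e1
        obtain ⟨rfl, rfl⟩ := e1
        simp only [hδ, Option.some.injEq, Prod.mk.injEq] at e2
        obtain ⟨rfl, rfl⟩ := e2
        simp only at e3 e4
        rw [e3, e4]
    obtain ⟨h', _, h2⟩ := this
    obtain ⟨N, hN⟩ := ih h'
    obtain ⟨N', hN'⟩ := one a.2 h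
    refine ⟨max N N', fun c' hc' s => ?_⟩
    rcases Relation.ReflTransGen.cases_head hc' with rfl | ⟨b', hb', hc''⟩
    · exact (hN' s).trans (le_max_right _ _)
    · rw [h2 b' hb'] at hc''
      exact (hN c' hc'' s).trans (le_max_left _ _)

section model

variable (N : ℕ)

/-- functions on families of stacks which vanish when a stack is longer than `N` -/
def V (K Γ Q : Type) (N : ℕ) : Submodule (ZMod 2) ((Option K → List (Let Γ Q)) → ZMod 2) where
  carrier := {F | ∀ U, (∃ s, N < (U s).length) → F U = 0}
  add_mem' := by
    intro F G hF hG U hU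
    simp [hF U hU, hG U hU]
  zero_mem' := by
    intro U _
    rfl
  smul_mem' := by
    intro c F hF U hU
    simp [hF U hU]

instance finite_V [Finite K] [Finite Γ] [Finite Q] : Finite (V K Γ Q N) := by
  have f1 : Finite {l : List (Let Γ Q) // l.length ≤ N} :=
    (List.finite_length_le (Let Γ Q) N).to_subtype
  have f2 : Finite {U : Option K → List (Let Γ Q) // ∀ s, (U s).length ≤ N} := by
    refine Finite.of_injective
      (β := Option K → {l : List (Let Γ Q) // l.length ≤ N}) (fun U s => ⟨U.1 s, U.2 s⟩) ?_
    intro U U' h
    apply Subtype.ext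
    funext s
    have := congrFun h s
    simpa using this
  refine Finite.of_injective
    (β := {U : Option K → List (Let Γ Q) // ∀ s, (U s).length ≤ N} → ZMod 2)
    (fun F U => F.1 U.1) ?_
  intro F G h
  apply Subtype.ext
  funext U
  by_cases hU : ∀ s, (U s).length ≤ N
  · exact congrFun h ⟨U, hU⟩
  · push Not at hU
    rw [F.2 U hU, G.2 U hU]

/-- the operator of a letter -/
def T [DecidableEq K] (x : Option K × Let Γ Q) : V K Γ Q N →ₗ[ZMod 2] V K Γ Q N where
  toFun F := ⟨fun U => F.1 (push U x), by
    rintro U ⟨s, hs⟩
    apply F.2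
    refine ⟨s, hs.trans_le ?_⟩
    unfold push
    by_cases h : s = x.1
    · subst h; simp
    · rw [Function.update_of_ne h]⟩
  map_add' F G := rfl
  map_smul' c F := rfl

/-- the space on which the Lie ring acts -/
abbrev W (K Γ Q : Type) (N : ℕ) : Type := V K Γ Q N × ZMod 2

/-- the ring of all linear maps of `W`, to be used as a Lie ring with the commutator bracket -/
def R (K Γ Q : Type) (N : ℕ) : Type := Module.End (ZMod 2) (W K Γ Q N)

noncomputable instance : Ring (R K Γ Q N) :=
  inferInstanceAs (Ring (Module.End (ZMod 2) (W K Γ Q N)))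

noncomputable instance : LieRing (R K Γ Q N) := LieRing.ofAssociativeRing

instance finite_R [Finite K] [Finite Γ] [Finite Q] : Finite (R K Γ Q N) := by
  have : Finite (Module.End (ZMod 2) (W K Γ Q N)) :=
    Finite.of_injective
      (fun X : Module.End (ZMod 2) (W K Γ Q N) => (X : W K Γ Q N → W K Γ Q N))
      DFunLike.coe_injective
  exact this

/-- operators on `V` as operators on `W` -/
def liftE (X : V K Γ Q N →ₗ[ZMod 2] V K Γ Q N) : Module.End (ZMod 2) (W K Γ Q N) :=
  LinearMap.prodMap X 0

/-- vectors of `V` as operators on `W` -/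
def colE (F : V K Γ Q N) : Module.End (ZMod 2) (W K Γ Q N) :=
  (LinearMap.inl (ZMod 2) (V K Γ Q N) (ZMod 2)).comp
    ((LinearMap.toSpanSingleton (ZMod 2) (V K Γ Q N) F).comp
      (LinearMap.snd (ZMod 2) (V K Γ Q N) (ZMod 2)))

/-- operators on `V` as elements of the Lie ring `R` -/
def lift (X : V K Γ Q N →ₗ[ZMod 2] V K Γ Q N) : R K Γ Q N := liftE N X

/-- vectors of `V` as elements of the Lie ring `R` -/
def col (F : V K Γ Q N) : R K Γ Q N := colE N F

theorem lift_col (X : V K Γ Q N →ₗ[ZMod 2] V K Γ Q N) (F : V K Γ Q N) :
    ⁅lift N X, col N F⁆ = col N (X F) := by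
  have h : liftE N X * colE N F - colE N F * liftE N X = colE N (X F) := by
    refine LinearMap.ext fun w => ?_
    simp [liftE, colE]
  exact h

theorem lift_lift (X Y : V K Γ Q N →ₗ[ZMod 2] V K Γ Q N) (h : ∀ F, X (Y F) = Y (X F)) :
    ⁅lift N X, lift N Y⁆ = 0 := by
  have h : liftE N X * liftE N Y - liftE N Y * liftE N X = 0 := by
    refine LinearMap.ext fun w => ?_
    simp [liftE, h]
  exact h

theorem col_zero : col N (0 : V K Γ Q N) = 0 := by
  have h : colE N (0 : V K Γ Q N) = 0 := by
    refine LinearMap.ext fun w => ?_
    simp [colE]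
  exact h

theorem col_inj {F : V K Γ Q N} (h : col N F = 0) : F = 0 := by
  have h' : colE N F = 0 := h
  have := congrArg (fun X : Module.End (ZMod 2) (W K Γ Q N) => (X (0, 1)).1) h'
  simpa [colE] using this

theorem T_comm [DecidableEq K] (x y : Option K × Let Γ Q) (h : x.1 ≠ y.1) (F : V K Γ Q N) :
    T N x (T N y F) = T N y (T N x F) := by
  apply Subtype.ext
  funext U
  show F.1 (push (push U x) y) = F.1 (push (push U y) x)
  unfold push
  rw [Function.update_of_ne (Ne.symm h), Function.update_of_ne h, Function.update_comm h]

end model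

theorem foldl_push_word [DecidableEq K] (k : K) (w : List Γ) (U : Option K → List (Let Γ Q)) :
    ((w.reverse.map fun x => ((some k, .inl x) : Option K × Let Γ Q)).foldl push U) =
      Function.update U (some k) (w.map Sum.inl ++ U (some k)) := by
  induction w with
  | nil => simp
  | cons x w ih =>
    rw [List.reverse_cons, List.map_append, List.foldl_append, ih]
    simp [push]

theorem foldl_push_all [DecidableEq K] (ks : List K) (hks : ks.Nodup) (S : K → List Γ) :
    ∀ U : Option K → List (Let Γ Q), ((word ks S).foldl push U) =
      fun s => match s with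
        | some k => if k ∈ ks then (S k).map Sum.inl ++ U (some k) else U (some k)
        | none => U none := by
  induction ks with
  | nil =>
    intro U
    funext s
    cases s <;> simp [word]
  | cons k ks ih =>
    intro U
    have hk := (List.nodup_cons.1 hks).1
    have : word (Q := Q) (k :: ks) S =
        ((S k).reverse.map fun x => ((some k, .inl x) : Option K × Let Γ Q)) ++ word ks S := rfl
    rw [this, List.foldl_append, foldl_push_word, ih (List.nodup_cons.1 hks).2]
    funext s
    cases s with
    | none => simp
    | some s =>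
      by_cases h1 : s = k
      · subst h1
        simp [hk]
      · simp [h1]

theorem foldr_T [DecidableEq K] (N : ℕ) (l : List (Option K × Let Γ Q)) (F : V K Γ Q N) :
    ∀ U, (l.foldr (fun x G => T N x G) F).1 U = F.1 (l.foldl push U) := by
  induction l with
  | nil => intro U; rfl
  | cons x l ih =>
    intro U
    rw [List.foldr_cons, List.foldl_cons, ← ih]
    rfl

theorem eval_chain_col [DecidableEq K] (N : ℕ) (e : Gen K Γ Q → ℕ)
    (v : ℕ → R K Γ Q N) (hv : ∀ x, v (e (.inl x)) = lift N (T N x))
    (t : Term) (F : V K Γ Q N) (ht : t.eval v = col N F) (l : List (Option K × Let Γ Q)) :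
    (chain (l.map fun x => .var (e (.inl x))) t).eval v =
      col N (l.foldr (fun x G => T N x G) F) := by
  induction l with
  | nil => exact ht
  | cons x l ih =>
    have : (chain ((x :: l).map fun x => .var (e (.inl x))) t : Term) =
        .br (.var (e (.inl x))) (chain (l.map fun x => .var (e (.inl x))) t) := rfl
    rw [this, Term.eval, ih, Term.eval, hv, lift_col]
    rfl

theorem orb_key [DecidableEq K] (M : Mach K Γ Q) (q₀ : Q) (S₀ : K → List Γ) {q q' : Q} {o : Γ}
    {w : List Γ} (hδ : M.δ q o = some (q', w)) (U : Option K → List (Let Γ Q)) :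
    (∃ S h, Orb M q₀ S₀ (q, S, h) ∧ encode S h = push U (some (M.κ q), .inl o)) ↔
    (∃ S h, Orb M q₀ S₀ (q', S, h) ∧ encode S h =
      push (Function.update U (some (M.κ q)) (w.map Sum.inl ++ U (some (M.κ q))))
        (none, .inr (q, o))) := by
  have inl_inj : Function.Injective (Sum.inl : Γ → Let Γ Q) := Sum.inl_injective
  have inr_inj : Function.Injective (Sum.inr : Q × Γ → Let Γ Q) := Sum.inr_injective
  constructor
  · rintro ⟨S, h, hO, he⟩
    have e1 : (S (M.κ q)).map Sum.inl = Sum.inl o :: U (some (M.κ q)) := by
      have := congrFun he (some (M.κ q))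
      simpa [encode, push] using this
    have e2 : ∀ s, s ≠ M.κ q → (S s).map Sum.inl = U (some s) := by
      intro s hs
      have := congrFun he (some s)
      simpa [encode, push, hs] using this
    have e3 : h.map Sum.inr = U none := by
      have := congrFun he none
      simpa [encode, push] using this
    rcases hS : S (M.κ q) with _ | ⟨o', z⟩
    · simp [hS] at e1
    · rw [hS, List.map_cons, List.cons.injEq] at e1
      obtain ⟨h1, h2⟩ := e1
      have h1 := inl_inj h1
      subst h1
      refine ⟨Function.update S (M.κ q) (w ++ z), (q, o') :: h,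
        Relation.ReflTransGen.tail hO ⟨o', z, w, hS, hδ, rfl, rfl⟩, ?_⟩
      funext s
      cases s with
      | none => simp [encode, push, ← e3]
      | some s =>
        by_cases hs : s = M.κ q
        · subst hs
          simp [encode, push, ← h2]
        · simp [encode, push, hs, e2 s hs]
  · rintro ⟨S', h', hO, he⟩
    have e1 : (S' (M.κ q)).map Sum.inl = w.map Sum.inl ++ U (some (M.κ q)) := by
      have := congrFun he (some (M.κ q))
      simpa [encode, push] using this
    have e2 : ∀ s, s ≠ M.κ q → (S' s).map Sum.inl = U (some s) := by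
      intro s hs
      have := congrFun he (some s)
      simpa [encode, push, hs] using this
    have e3 : h'.map Sum.inr = Sum.inr (q, o) :: U none := by
      have := congrFun he none
      simpa [encode, push] using this
    rcases Relation.ReflTransGen.cases_tail hO with heq | ⟨⟨q₁, S₁, h₁⟩, hO₁, hst⟩
    · simp only [Prod.mk.injEq] at heq
      rw [heq.2.2] at e3
      simp at e3
    · obtain ⟨o₁, z₁, w₁, a1, a2, a3, a4⟩ := hst
      simp only at a1 a2 a3 a4
      rw [a4, List.map_cons, List.cons.injEq] at e3
      obtain ⟨b1, b2⟩ := e3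
      have b1 := inr_inj b1
      simp only [Prod.mk.injEq] at b1
      obtain ⟨rfl, rfl⟩ := b1
      rw [hδ] at a2
      simp only [Option.some.injEq, Prod.mk.injEq, true_and] at a2
      subst a2
      subst a3
      rw [Function.update_self, List.map_append, List.append_cancel_left_eq] at e1
      refine ⟨S₁, h₁, hO₁, ?_⟩
      funext s
      cases s with
      | none => simp [encode, push, b2]
      | some s =>
        by_cases hs : s = M.κ q₁
        · subst hs
          simp [encode, push, a1, e1]
        · have := e2 s hs
          rw [Function.update_of_ne hs] at this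
          simp [encode, push, hs, this]

theorem halt_unique [DecidableEq K] {M : Mach K Γ Q} {c a b : Q × (K → List Γ)}
    (ha : M.Reaches c a) (hb : M.Reaches c b) (ha' : M.step a = none) (hb' : M.step b = none) :
    a = b := by
  rcases StateTransition.reaches_total (f := M.step) ha hb with h | h
  · rcases Relation.ReflTransGen.cases_head h with h | ⟨x, hx, _⟩
    · exact h
    · rw [ha'] at hx
      exact absurd hx (by simp)
  · rcases Relation.ReflTransGen.cases_head h with h | ⟨x, hx, _⟩
    · exact h.symm
    · rw [hb'] at hx
      exact absurd hx (by simp)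

theorem reject [DecidableEq K] [Finite K] [Finite Γ] [Finite Q] (M : Mach K Γ Q)
    (acc : Q → Γ → Prop) (hacc : ∀ q o, acc q o → M.δ q o = none) (e : Gen K Γ Q → ℕ)
    (he : Function.Injective e) (ks : List K) (hks : ks.Nodup) (hall : ∀ k, k ∈ ks) (q₀ : Q)
    (S₀ : K → List Γ) (r : Q × (K → List Γ)) (hr : M.Reaches (q₀, S₀) r) (hh : M.step r = none)
    (hna : ∀ o z, r.2 (M.κ r.1) = o :: z → ¬ acc r.1 o) :
    ∃ (L : Type) (_ : LieRing L) (_ : Finite L) (v : ℕ → L),
      (∀ p, IsPrem M acc e p → p.1.eval v = p.2.eval v) ∧
        (cfgTerm ks e q₀ S₀).eval v ≠ 0 := by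
  classical
  obtain ⟨N, hN⟩ := orb_bound M (q₀, S₀) r hr hh []
  let f : Q → V K Γ Q N := fun q =>
    ⟨fun U => if ∃ S h, Orb M q₀ S₀ (q, S, h) ∧ encode S h = U then 1 else 0, by
      rintro U ⟨s, hs⟩
      refine if_neg ?_
      rintro ⟨S, h, hO, rfl⟩
      exact absurd (hN _ hO s) (not_le.2 hs)⟩
  let ρ : Gen K Γ Q → R K Γ Q N := fun x =>
    match x with
    | .inl x => lift N (T N x)
    | .inr q => col N (f q)
  let v : ℕ → R K Γ Q N := Function.extend e ρ 0
  have hv : ∀ x, v (e x) = ρ x := fun x => he.extend_apply ρ 0 x
  have hv1 : ∀ x, v (e (.inl x)) = lift N (T N x) := fun x => hv _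
  have hv2 : ∀ q, v (e (.inr q)) = col N (f q) := fun q => hv _
  refine ⟨R K Γ Q N, inferInstance, inferInstance, v, ?_, ?_⟩
  · rintro p (⟨s, t, a, b, hst, rfl⟩ | ⟨q, o, q', w, hδ, rfl⟩ | ⟨q, o, ha, rfl⟩)
    · simp only [Term.eval]
      rw [hv1, hv1]
      exact lift_lift N _ _ (T_comm N (s, a) (t, b) hst)
    · have h1 : (Term.br (.var (e (.inl (none, .inr (q, o))))) (.var (e (.inr q'))) : Term).eval v =
          col N (T N (none, .inr (q, o)) (f q')) := by
        simp only [Term.eval]
        rw [hv1, hv2, lift_col]
      have h2 := eval_chain_col N e v hv1 _ _ h1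
        (w.reverse.map fun x => ((some (M.κ q), .inl x) : Option K × Let Γ Q))
      simp only [List.map_map] at h2
      have h3 : (fun x => Term.var (e (Sum.inl x))) ∘
          (fun x => ((some (M.κ q), .inl x) : Option K × Let Γ Q)) =
          fun x => Term.var (e (.inl (some (M.κ q), .inl x))) := rfl
      rw [h3] at h2
      show (Term.br _ _).eval v = _
      rw [h2]
      simp only [Term.eval]
      rw [hv1, hv2, lift_col]
      congr 1
      apply Subtype.ext
      funext U
      rw [foldr_T, foldl_push_word]
      show (if ∃ S h, Orb M q₀ S₀ (q, S, h) ∧ encode S h = push U (some (M.κ q), .inl o)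
          then (1 : ZMod 2) else 0) =
        (if ∃ S h, Orb M q₀ S₀ (q', S, h) ∧ encode S h =
          push (Function.update U (some (M.κ q)) (w.map Sum.inl ++ U (some (M.κ q))))
            (none, .inr (q, o)) then (1 : ZMod 2) else 0)
      simp only [orb_key M q₀ S₀ hδ U]
    · simp only [Term.eval]
      rw [hv1, hv2, lift_col]
      have : T N (some (M.κ q), .inl o) (f q) = 0 := by
        apply Subtype.ext
        funext U
        show (if ∃ S h, Orb M q₀ S₀ (q, S, h) ∧ encode S h = push U (some (M.κ q), .inl o)
          then (1 : ZMod 2) else 0) = 0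
        rw [if_neg]
        rintro ⟨S, h, hO, heq⟩
        have e1 : (S (M.κ q)).map Sum.inl = Sum.inl o :: U (some (M.κ q)) := by
          have := congrFun heq (some (M.κ q))
          simpa [encode, push] using this
        rcases hS : S (M.κ q) with _ | ⟨o', z⟩
        · simp [hS] at e1
        · rw [hS, List.map_cons, List.cons.injEq] at e1
          have h1 : o' = o := Sum.inl_injective e1.1
          subst h1
          have h2 : M.step (q, S) = none := by
            simp [Mach.step, hS, hacc q o' ha]
          have h3 := halt_unique (orb_proj hO) hr h2 hh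
          simp only at h3
          subst h3
          exact hna o' z hS ha
      rw [this]
      exact col_zero N
  · intro h0
    have h1 := eval_chain_col N e v hv1 (.var (e (.inr q₀))) (f q₀)
      (by simp only [Term.eval]; exact hv2 q₀) (word ks S₀)
    have h2 : (cfgTerm ks e q₀ S₀).eval v =
        col N ((word ks S₀).foldr (fun x G => T N x G) (f q₀)) := h1
    rw [h2] at h0
    have h3 := col_inj N h0
    have h4 : ((word ks S₀).foldr (fun x G => T N x G) (f q₀)).1 (fun _ => []) = 0 := by
      rw [h3]; rfl
    rw [foldr_T, foldl_push_all ks hks] at h4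
    have h5 : (f q₀).1 (fun s => match s with
        | some k => if k ∈ ks then (S₀ k).map Sum.inl ++
            ((fun _ => []) : Option K → List (Let Γ Q)) (some k) else
            ((fun _ => []) : Option K → List (Let Γ Q)) (some k)
        | none => ((fun _ => []) : Option K → List (Let Γ Q)) none) = 1 := by
      show (if _ then (1 : ZMod 2) else 0) = 1
      rw [if_pos]
      refine ⟨S₀, [], Relation.ReflTransGen.refl, ?_⟩
      funext s
      cases s with
      | none => simp [encode]
      | some k => simp [encode, hall k]
    rw [h5] at h4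
    exact absurd h4 (by decide)

end machine

/-! ### The reduction -/

open Turing in
open PartrecToTM2 (K' trNat) in
/-- **The equality problem for the class of all finite Lie rings is undecidable**: no algorithm
decides, for every quasi-identity, whether it holds in all finite Lie rings. -/
theorem result : ¬ EqualityProblemDecidable := by
  rintro ⟨f, hf, hfv⟩
  obtain ⟨Q, finQ, M, q0, acc, hacc, hA, hR⟩ := exists_mach diag diag_partrec
  have finK : Finite K' := by
    refine Finite.of_injective (fun k : K' => match k with
      | .main => (0 : Fin 4)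
      | .rev => 1
      | .aux => 2
      | .stack => 3) ?_
    intro a b h
    cases a <;> cases b <;> simp_all
  obtain ⟨N, ⟨eq⟩⟩ := Finite.exists_equiv_fin (Gen K' (Option PartrecToTM2.Γ') Q)
  let e : Gen K' (Option PartrecToTM2.Γ') Q → ℕ := fun x => (eq x : ℕ)
  have he : Function.Injective e := fun a b h => eq.injective (Fin.ext h)
  let ks : List K' := [.rev, .aux, .stack, .main]
  have hks : ks.Nodup := by decide
  have hall : ∀ k, k ∈ ks := by intro k; cases k <;> simp [ks]
  let P : List (Term × Term) := (finite_prem M acc e).toFinset.toList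
  have hP : ∀ p, p ∈ P ↔ IsPrem M acc e p := by
    intro p
    simp [P]
  let qi : ℕ → QuasiId := fun n => ⟨P, (cfgTerm ks e q0 (start n), .zero)⟩
  let κ : PartrecToTM2.Γ' → ℕ := fun a => e (.inl (some .main, .inl (some a)))
  let pre : List ℕ := [3, e (.inl (some .rev, .inl none)) + 4,
    3, e (.inl (some .aux, .inl none)) + 4, 3, e (.inl (some .stack, .inl none)) + 4,
    3, e (.inl (some .main, .inl none)) + 4, 3, κ .cons + 4]
  have chain_code : ∀ (l : List (Option K' × Let (Option PartrecToTM2.Γ') Q)) (t : Term),
      (chain (l.map fun x => .var (e (.inl x))) t).code =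
        l.flatMap (fun x => [3, e (.inl x) + 4]) ++ t.code := by
    intro l t
    induction l with
    | nil => rfl
    | cons x l ih =>
      have : (chain ((x :: l).map fun x => .var (e (.inl x))) t : Term) =
        .br (.var (e (.inl x))) (chain (l.map fun x => .var (e (.inl x))) t) := rfl
      rw [this, Term.code, ih]
      simp [Term.code]
  have hcode : ∀ n, (qi n).code = P.length :: ((P.flatMap fun p => p.1.code ++ p.2.code) ++
      ((pre ++ ((((trNat n).map κ).reverse.flatMap fun i => [3, i + 4]) ++
        [e (.inr q0) + 4])) ++ [0])) := by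
    intro n
    have h1 : (cfgTerm ks e q0 (start n)).code =
        pre ++ ((((trNat n).map κ).reverse.flatMap fun i => [3, i + 4]) ++
        [e (.inr q0) + 4]) := by
      rw [cfgTerm, chain_code]
      have : (word ks (start n) : List (Option K' × Let (Option PartrecToTM2.Γ') Q)) =
          (some .rev, .inl none) :: (some .aux, .inl none) :: (some .stack, .inl none) ::
          (some .main, .inl none) :: (some .main, .inl (some .cons)) ::
          ((trNat n).map fun a => (some K'.main, .inl (some a))).reverse := by
        simp [word, ks, start, List.map_reverse]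
      rw [this]
      simp [pre, κ, List.flatMap_cons, Term.code, List.flatMap_map, ← List.map_reverse]
    simp only [QuasiId.code, qi, h1, Term.code]
  have hcomp : Computable fun n => (qi n).code := by
    have hfm : Computable (fun l : List ℕ => l.flatMap (fun x => [3, x + 4])) := by
      apply Primrec.to_comp
      refine Primrec.list_flatMap Primrec.id ?_
      have : Primrec (fun x : ℕ => [3, x + 4]) := by
        refine Primrec.list_cons.comp (Primrec.const _) ?_
        refine Primrec.list_cons.comp ?_ (Primrec.const _)
        exact Primrec.nat_add.comp Primrec.id (Primrec.const 4)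
      exact this.comp Primrec.snd
    have hd : Computable fun n => (((trNat n).map κ).reverse.flatMap fun i => [3, i + 4]) :=
      hfm.comp (Computable.list_reverse.comp (Pool.Agent.Helper147.Univ.digits_computable κ))
    simp only [hcode]
    refine Computable.list_cons.comp (Computable.const _) ?_
    refine Computable.list_append.comp (Computable.const _) ?_
    refine Computable.list_append.comp ?_ (Computable.const _)
    refine Computable.list_append.comp (Computable.const _) ?_
    exact Computable.list_append.comp hd (Computable.const _)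
  refine insep (fun n => f (qi n).code) (hf.comp hcomp) ?_ ?_
  · intro n hn
    rw [hfv]
    intro L _ _ v hv
    obtain ⟨q, S, o, z, h1, h2, h3⟩ := hA n hn
    exact accept M acc e v (fun p hp => hv p ((hP p).2 hp)) ks hks hall _ _ h1 o z h2 h3
  · intro n hn
    rw [Bool.eq_false_iff]
    intro h
    rw [hfv] at h
    obtain ⟨q, S, h1, h2, h3⟩ := hR n hn
    obtain ⟨L, i1, i2, v, h4, h5⟩ :=
      reject M acc hacc e he ks hks hall q0 (start n) _ h1 h2 h3
    exact h5 (h L v fun p hp => h4 p ((hP p).1 hp))

end Pool.Agent.Results.MP_b13462_lc.Undecidable
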